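import Pool.Agent.Helper13.PaleyLift

/-!
# Sets of quadratic residues with pairwise residue differences: a larger lower bound

For a prime power `q = p ^ n`, `p ≡ 1 mod 4` prime, `N q` is the largest size of a set of quadratic
residues modulo `q` all of whose differences are quadratic residues.  We prove
`N q ≥ 0.629 log p / log 2` for all `p ≥ 2 ^ 9000`; the bound known before is `0.5 log p / log 2`.

Proof.  The Paley graph has a clique `A` of `k` vertices with at least
`(p + √p + 1) / 2 ^ k - (√p + 1)` common neighbours, by the expander mixing inequality and a greedy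
choice; for `2 ^ k` about `√p / 2` this is more than `√p`.  Let `w` be the size of the largest clique;
it is also the size of the largest independent set.  In the common neighbourhood of `A` the cliques have
at most `w - k` elements and the independent sets at most `w`, so that by the theorem of Erdos and
Szekeres it has less than `binomial(2 w - k, w - k)` elements.  This is a smaller number than the
`binomial(2 w, w)` which one gets from the whole graph.
-/

set_option autoImplicit false

namespace Pool.Agent.Results.MP_79fcf0_nt.LowerBound629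

/-- `r` is a quadratic residue modulo `q`: it is invertible and a square in `ℤ / q`. -/
def IsResidue {q : ℕ} (r : ZMod q) : Prop := IsUnit r ∧ IsSquare r

/-- The elements of `S` are quadratic residues modulo `q`, and so are their differences. -/
def Admissible (q : ℕ) (S : Finset (ZMod q)) : Prop :=
  (∀ r ∈ S, IsResidue r) ∧ ∀ r ∈ S, ∀ r' ∈ S, r ≠ r' → IsResidue (r - r')

/-- The largest size of an admissible set modulo `q`. -/
noncomputable def N (q : ℕ) : ℕ := sSup {n | ∃ S : Finset (ZMod q), Admissible q S ∧ S.card = n}

open Pool.Agent.Helper13.Paley in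
theorem result (p : ℕ) (hp : p.Prime) (h4 : p % 4 = 1) (hlarge : 2 ^ 9000 ≤ p) (n : ℕ)
    (hn : 1 ≤ n) : 0.629 * (Real.log p / Real.log 2) ≤ (N (p ^ n) : ℝ) := by
  classical
  have hfact : Fact p.Prime := ⟨hp⟩
  have hp2 : p ≠ 2 := by rintro rfl; norm_num at h4
  have hp0 : (0 : ℝ) < p := by exact_mod_cast hp.pos
  have hlog2 : 0 < Real.log 2 := Real.log_pos (by norm_num)
  have hgen : ∀ e : ℕ, 2 ^ e ≤ p → (e : ℝ) ≤ Real.log p / Real.log 2 := by
    intro e he
    rw [le_div_iff₀ hlog2, ← Real.log_pow]
    apply Real.log_le_log (by positivity)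
    exact_mod_cast he
  have hL := hgen 9000 hlarge
  have hqne : NeZero (p ^ n) := ⟨pow_ne_zero _ hp.ne_zero⟩
  -- admissible sets modulo `p` lift
  have hN : ∀ S : Finset (ZMod p), Admissible p S → S.card ≤ N (p ^ n) := by
    intro S hS
    have hbdd : BddAbove {m | ∃ S : Finset (ZMod (p ^ n)), Admissible (p ^ n) S ∧ S.card = m} := by
      refine ⟨Fintype.card (ZMod (p ^ n)), ?_⟩
      rintro m ⟨T, -, rfl⟩
      exact Finset.card_le_univ T
    have hlift : ∀ m : ℤ, IsResidue (m : ZMod p) → IsResidue (m : ZMod (p ^ n)) :=
      fun m h => lift_sq hp hp2 hn m h.1 h.2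
    have hdiff : ∀ r r' : ZMod p, r ≠ r' → IsResidue (r - r') →
        IsResidue ((r.val : ZMod (p ^ n)) - (r'.val : ZMod (p ^ n))) := by
      intro r r' _ h
      have h1 := hlift ((r.val : ℤ) - (r'.val : ℤ)) (by push_cast; simpa using h)
      push_cast at h1
      exact h1
    have hinj : Set.InjOn (fun r : ZMod p => (r.val : ZMod (p ^ n))) (S : Set (ZMod p)) := by
      intro a ha b hb hab
      by_contra hne
      have h1 := hdiff a b hne (hS.2 a ha b hb hne)
      simp only at hab
      rw [hab, sub_self] at h1
      have h2 := h1.1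
      rw [isUnit_zero_iff] at h2
      have h3 : Nontrivial (ZMod (p ^ n)) :=
        ZMod.nontrivial_iff.2 (Nat.one_lt_pow (by omega) hp.one_lt).ne'
      exact zero_ne_one h2
    have hmem : S.card ∈ {m | ∃ S : Finset (ZMod (p ^ n)), Admissible (p ^ n) S ∧ S.card = m} := by
      refine ⟨S.image (fun r : ZMod p => (r.val : ZMod (p ^ n))), ⟨?_, ?_⟩,
        Finset.card_image_of_injOn hinj⟩
      · intro r hr
        rw [Finset.mem_image] at hr
        obtain ⟨a, ha, rfl⟩ := hr
        have h1 := hlift (a.val : ℤ) (by push_cast; simpa using hS.1 a ha)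
        push_cast at h1
        exact h1
      · intro r hr r' hr' hne
        rw [Finset.mem_image] at hr hr'
        obtain ⟨a, ha, rfl⟩ := hr
        obtain ⟨b, hb, rfl⟩ := hr'
        have hab : a ≠ b := fun h => hne (by rw [h])
        exact hdiff a b hab (hS.2 a ha b hb hab)
    exact le_csSup hbdd hmem
  -- cliques give admissible sets
  have hclique : ∀ S : Finset (ZMod p), Hom Adj S → S.card ≤ N (p ^ n) + 1 := by
    intro S hS
    rcases S.eq_empty_or_nonempty with rfl | ⟨a, ha⟩
    · simp
    · have hinj : Function.Injective (fun x : ZMod p => x - a) := sub_left_injective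
      have h1 := hN ((S.erase a).image (fun x => x - a)) ⟨?_, ?_⟩
      · rw [Finset.card_image_of_injective _ hinj, Finset.card_erase_of_mem ha] at h1
        omega
      · intro r hr
        rw [Finset.mem_image] at hr
        obtain ⟨x, hx, rfl⟩ := hr
        rw [Finset.mem_erase] at hx
        have h2 := hS x hx.2 a ha hx.1
        exact ⟨isUnit_iff_ne_zero.2 (sub_ne_zero.2 h2.1), h2.2⟩
      · intro r hr r' hr' hne
        rw [Finset.mem_image] at hr hr'
        obtain ⟨x, hx, rfl⟩ := hr
        obtain ⟨y, hy, rfl⟩ := hr'
        have hxy : x ≠ y := fun h => hne (by rw [h])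
        have h2 := hS x (Finset.mem_of_mem_erase hx) y (Finset.mem_of_mem_erase hy) hxy
        rw [sub_sub_sub_cancel_right]
        exact ⟨isUnit_iff_ne_zero.2 (sub_ne_zero.2 h2.1), h2.2⟩
  have hfin := asym p (N (p ^ n) + 1) hp0 (by exact_mod_cast hL)
    (fun k hk => main_ineq h4 (N (p ^ n) + 1) hclique k hk)
  push_cast at hfin
  linarith

end Pool.Agent.Results.MP_79fcf0_nt.LowerBound629
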